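import Pool.Agent.H92.E.Pl
import Pool.Agent.H92.T.Main

set_option autoImplicit false

/-! The exceptional case. -/

namespace Pool.Agent.H92.E

open Finset Filter Topology
open Pool.Agent.H262R2.UM
open Pool.Agent.H92.G (Chr Tends)
open Pool.Agent.H92.T (sub_nat card_emb adm_sub bnd8)

open Classical in
/-- the exceptional case: the exceptional modulus divides all the `a i` -/
theorem exc_one {m K1 E u A1 M1 w w2 s2 g1 V h : ℕ} {ϑ1 : ℝ} (hh : 1 ≤ h) (hE : 1 ≤ E)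
    (hminus : ∀ M : ℕ, M1 ≤ M → ∀ (f : ℕ) (χ : ℕ → ℝ), Chr f χ → ∀ a b : Fin K1 → ℕ, Adm a b →
      (∀ i, 0 < a i ∧ b i ≤ a i) →
      Function.Injective (fun i => (a i, b i)) → (∀ i, a i ≤ M) → (∀ i, f ∣ a i ∧ χ (b i) = -1) →
      ∑ r ∈ (Ioc (M ^ (16 * E)) (M ^ (50 * u * E))).filter (fun r => r.Prime ∧ χ r = 1), 1 / (r : ℝ) ≤ ϑ1 →
      ∃ n : ℕ, (n : ℝ) ≤ 8 * (M : ℝ) ^ A1 ∧
        m ≤ #((univ : Finset (Fin K1)).filter (fun i => (a i * n + b i).Prime)))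
    (hmp : ∀ s : ℕ, 3 ≤ s → ∀ (f : ℕ) (χ : ℕ → ℝ), Chr f χ → 0 < f → f ≤ s →
      ∑ r ∈ (Ioc (s ^ 16) (s ^ w)).filter (fun r => r.Prime ∧ χ r = 1), 1 / (r : ℝ) ≤ 1 / 4 →
      s ≤ ((Ioc (s ^ 16) (s ^ w)).filter (fun r => r.Prime ∧ χ r = -1)).card)
    (hpp : ∀ s : ℕ, s2 ≤ s → ∀ (f : ℕ) (χ : ℕ → ℝ) (L : ℝ), Chr f χ →
      Tends χ L → 1 / (s : ℝ) ≤ L → 2 ≤ f → f ≤ s →
      ∑ r ∈ (Ioc (s ^ 16) (s ^ w2)).filter (fun r => r.Prime ∧ χ r = 1), 1 / (r : ℝ) ≤ 1 / 8 →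
      ∃ r : Fin K1 → ℕ, Function.Injective r ∧ ∀ j, (r j).Prime ∧ s ^ 16 < r j ∧ r j ≤ s ^ w2 ∧ χ (r j) = 1)
    (hg1 : g1 = (w * (3 * h) + w2) * K1 + 2) (hwV : w ≤ V) (hw2V : w2 ≤ V) (hEV : g1 * (50 * u * E) ≤ V)
    {s f : ℕ} {χ : ℕ → ℝ} {L : ℝ} (hχ : Chr f χ) (hL : Tends χ L) (hLs : 1 / (s : ℝ) ≤ L) (hf2 : 2 ≤ f)
    (hfs : f ≤ s) (hs1 : M1 ≤ s) (hs2 : s2 ≤ s) (hs17 : 17 ≤ s) (hK1s : K1 ≤ s)
    (hfilt : ∀ x y : ℕ, 16 ≤ x → y ≤ V →
      ∑ r ∈ (Ioc (s ^ x) (s ^ y)).filter (fun r => r.Prime ∧ χ r = 1), 1 / (r : ℝ) ≤ min (1 / 8) ϑ1)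
    {a b : Fin K1 → ℕ} (hadm : Adm a b) (hab : ∀ i, 0 < a i ∧ b i ≤ a i)
    (hinj : Function.Injective (fun i => (a i, b i))) (has : ∀ i, a i ≤ s) (hIf : ∀ i, f ∣ a i) :
    ∃ n : ℕ, n + 1 ≤ s ^ (g1 * (A1 + 1) + (w * (3 * h) + w2) * K1) ∧
      m ≤ #((univ : Finset (Fin K1)).filter (fun i => a i * n + b i ≠ 0 ∧
        ArithmeticFunction.cardFactors (a i * n + b i) ≡ 1 [MOD h])) := by
  have hbf : ∀ i, (b i).Coprime f := fun i => Nat.Coprime.coprime_dvd_right (hIf i) (adm_coprime hadm i)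
  -- the exponents
  obtain ⟨π, hπ⟩ : ∃ π : Fin K1 → ℕ, π = fun i => if χ (b i) = 1 then 1 else 0 := ⟨_, rfl⟩
  have hte : ∀ i, ∃ t e : ℕ, t ≤ 3 * h ∧ e ≤ 1 ∧ t % 2 = π i ∧ t + e + 1 ≡ 1 [MOD h] := by
    intro i
    apply choose_te h 1 (π i) hh
    rw [hπ]
    simp only
    split_ifs <;> omega
  choose t e ht he hpar hmod using hte
  -- the primes
  have hmany := hmp s (by omega) f χ hχ (by omega) hfs
    ((hfilt 16 w le_rfl hwV).trans ((min_le_left _ _).trans (by norm_num)))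
  obtain ⟨p, hpi, hp⟩ := sub_nat _ (hK1s.trans hmany)
  have hp' : ∀ j, (p j).Prime ∧ s ^ 16 < p j ∧ p j ≤ s ^ w ∧ χ (p j) = -1 := by
    intro j
    have h2 := mem_filter.1 (hp j)
    exact ⟨h2.2.1, (mem_Ioc.1 h2.1).1, (mem_Ioc.1 h2.1).2, h2.2.2⟩
  obtain ⟨ρ, hρi, hρ⟩ := hpp s hs2 f χ L hχ hL hLs hf2 hfs ((hfilt 16 w2 le_rfl hw2V).trans (min_le_left _ _))
  have hss : s * s ≤ s ^ 16 := by
    calc s * s = s ^ 2 := by ring
      _ ≤ s ^ 16 := Nat.pow_le_pow_right (by omega) (by norm_num)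
  have hpρ : ∀ i j, p i ≠ ρ j := by
    intro i j hij
    have h1 := (hp' i).2.2.2
    rw [hij, (hρ j).2.2.2] at h1
    norm_num at h1
  obtain ⟨v, hv⟩ : ∃ v : Fin K1 → ℕ, v = fun i => p i ^ t i * ρ i ^ e i := ⟨_, rfl⟩
  have hvi : ∀ i, v i = p i ^ t i * ρ i ^ e i := fun i => by rw [hv]
  have hv0 : ∀ i, 0 < v i := fun i => by
    rw [hvi]
    exact Nat.mul_pos (Nat.pow_pos (hp' i).1.pos) (Nat.pow_pos (hρ i).1.pos)
  have hvco : ∀ i j, i ≠ j → (v i).Coprime (v j) := by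
    intro i j hij
    rw [hvi, hvi]
    have h1 : (p i).Coprime (p j) := (Nat.coprime_primes (hp' i).1 (hp' j).1).2 (fun h1 => hij (hpi h1))
    have h2 : (p i).Coprime (ρ j) := (Nat.coprime_primes (hp' i).1 (hρ j).1).2 (hpρ i j)
    have h3 : (ρ i).Coprime (p j) := (Nat.coprime_primes (hρ i).1 (hp' j).1).2 (hpρ j i).symm
    have h4 : (ρ i).Coprime (ρ j) := (Nat.coprime_primes (hρ i).1 (hρ j).1).2 (fun h1 => hij (hρi h1))
    exact Nat.Coprime.mul_left (Nat.Coprime.mul_right (h1.pow _ _) (h2.pow _ _))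
      (Nat.Coprime.mul_right (h3.pow _ _) (h4.pow _ _))
  have hvp : ∀ i, ∀ q : ℕ, q.Prime → q ∣ v i → s * s < q := by
    intro i q hq hqv
    rw [hvi] at hqv
    rcases hq.dvd_mul.1 hqv with h1 | h1
    · have h2 := (Nat.prime_dvd_prime_iff_eq hq (hp' i).1).1 (hq.dvd_of_dvd_pow h1)
      have := (hp' i).2.1
      omega
    · have h2 := (Nat.prime_dvd_prime_iff_eq hq (hρ i).1).1 (hq.dvd_of_dvd_pow h1)
      have := (hρ i).2.1
      omega
  obtain ⟨ν, a', b', Q, hνP, hadm', hab', hinj', ha', hQ, hid⟩ := subst_u hadm hab hinj has v hv0 hvco hvp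
  obtain ⟨P, hP⟩ : ∃ P : ℕ, P = ∏ j, v j := ⟨_, rfl⟩
  rw [← hP] at hνP hid
  have hχv : ∀ i, χ (v i) * χ (b' i) = χ (b i) := by
    intro i
    rw [← hχ.mul]
    have h1 := hid i 0
    simp only [mul_zero, add_zero, zero_add] at h1
    rw [← h1]
    apply hχ.per
    have h3 : a i * ν ≡ 0 [MOD f] := Nat.modEq_zero_iff_dvd.2 ((hIf i).mul_right ν)
    have := h3.add_right (b i)
    rwa [zero_add] at this
  have hχvi : ∀ i, χ (v i) = (-1) ^ t i := by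
    intro i
    rw [hvi, hχ.mul, hχ.pow, hχ.pow, (hp' i).2.2.2, (hρ i).2.2.2, one_pow, mul_one]
  have hb' : ∀ i, χ (b' i) = -1 := by
    intro i
    have h1 := hχv i
    rw [hχvi] at h1
    have h2 := hpar i
    rw [hπ] at h2
    simp only at h2
    by_cases hb : χ (b i) = 1
    · rw [if_pos hb] at h2
      rw [hb, Odd.neg_one_pow (Nat.odd_iff.2 h2)] at h1
      linarith
    · rw [if_neg hb] at h2
      rcases hχ.val (b i) (hbf i) with h3 | h3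
      · exact absurd h3 hb
      · rw [h3, Even.neg_one_pow (Nat.even_iff.2 h2)] at h1
        linarith
  have hs1' : 1 ≤ s := by omega
  have hPs : P ≤ s ^ ((w * (3 * h) + w2) * K1) := by
    rw [hP, pow_mul]
    calc ∏ i, v i ≤ ∏ _i : Fin K1, s ^ (w * (3 * h) + w2) := by
          apply prod_le_prod'
          intro i _
          rw [hvi, pow_add]
          apply Nat.mul_le_mul
          · calc p i ^ t i ≤ (s ^ w) ^ t i := Nat.pow_le_pow_left (hp' i).2.2.1 _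
              _ = s ^ (w * t i) := by rw [pow_mul]
              _ ≤ s ^ (w * (3 * h)) := Nat.pow_le_pow_right hs1' (Nat.mul_le_mul_left _ (ht i))
          · calc ρ i ^ e i ≤ (s ^ w2) ^ e i := Nat.pow_le_pow_left (hρ i).2.2.1 _
              _ ≤ (s ^ w2) ^ 1 := Nat.pow_le_pow_right (Nat.one_le_pow _ _ hs1') (he i)
              _ = s ^ w2 := pow_one _
      _ = (s ^ (w * (3 * h) + w2)) ^ K1 := by rw [prod_const, card_univ, Fintype.card_fin]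
  have hQP : ∀ i, Q i ≤ P := by
    intro i
    have h1 := hQ i
    rw [← hP] at h1
    rw [h1]
    exact Nat.le_mul_of_pos_left _ (hv0 i)
  obtain ⟨M'', hM''⟩ : ∃ M'' : ℕ, M'' = s ^ g1 := ⟨_, rfl⟩
  have hsM'' : s ≤ M'' := by rw [hM'']; exact Nat.le_self_pow (by omega) s
  have ha'M : ∀ j, a' j ≤ M'' := by
    intro j
    rw [ha' j]
    calc a j * Q j ≤ s * s ^ ((w * (3 * h) + w2) * K1) := Nat.mul_le_mul (has _) ((hQP j).trans hPs)
      _ = s ^ ((w * (3 * h) + w2) * K1 + 1) := by ring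
      _ ≤ M'' := by rw [hM'']; exact Nat.pow_le_pow_right (by omega) (by omega)
  obtain ⟨n, hn1, hn2⟩ := hminus M'' (hs1.trans hsM'') f χ hχ a' b' hadm' hab' hinj' ha'M
    (fun i => ⟨by rw [ha' i]; exact (hIf i).mul_right _, hb' i⟩) (by
      rw [hM'', ← pow_mul, ← pow_mul]
      refine (hfilt _ _ ?_ hEV).trans (min_le_right _ _)
      have h3 : 1 * (16 * E) ≤ g1 * (16 * E) := Nat.mul_le_mul_right _ (by omega)
      omega)
  refine ⟨ν + P * n, ?_, hn2.trans (card_le_card ?_)⟩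
  · have h3 := bnd8 (by omega) hn1
    rw [hM'', ← pow_mul] at h3
    calc ν + P * n + 1 ≤ P * (n + 1) := by
          have : P * (n + 1) = P * n + P := by ring
          omega
      _ ≤ s ^ ((w * (3 * h) + w2) * K1) * s ^ (g1 * (A1 + 1)) := Nat.mul_le_mul hPs h3
      _ = s ^ (g1 * (A1 + 1) + (w * (3 * h) + w2) * K1) := by rw [← pow_add]; congr 1; ring
  · intro j hj
    rw [mem_filter] at hj ⊢
    refine ⟨mem_univ _, by rw [hid j n]; exact (Nat.mul_pos (hv0 j) hj.2.pos).ne', ?_⟩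
    rw [hid j n, ArithmeticFunction.cardFactors_mul (hv0 j).ne' hj.2.ne_zero,
      ArithmeticFunction.cardFactors_apply_prime hj.2, hvi,
      ArithmeticFunction.cardFactors_mul (Nat.pow_pos (hp' j).1.pos).ne' (Nat.pow_pos (hρ j).1.pos).ne',
      ArithmeticFunction.cardFactors_apply_prime_pow (hp' j).1, ArithmeticFunction.cardFactors_apply_prime_pow (hρ j).1]
    exact hmod j

end Pool.Agent.H92.E
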