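import Pool.Agent.H92.E.Main

set_option autoImplicit false

/-! Arbitrary residues, arbitrary forms. -/

namespace Pool.Agent.H92.E

open Finset Filter Topology
open Pool.Agent.H262R2.UM

/-- different primes above a bound -/
theorem chain (B T : ℕ) (hB : 1 ≤ B) : ∃ p : Fin T → ℕ, Function.Injective p ∧
    ∀ i, (p i).Prime ∧ B < p i ∧ p i ≤ B * 2 ^ T := by
  have h : ∀ i : Fin T, ∃ p : ℕ, p.Prime ∧ B * 2 ^ (i : ℕ) < p ∧ p ≤ 2 * (B * 2 ^ (i : ℕ)) := by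
    intro i
    exact Nat.exists_prime_lt_and_le_two_mul _ (Nat.mul_pos hB (Nat.pow_pos (by norm_num))).ne'
  choose p hp1 hp2 hp3 using h
  have hlt : ∀ i j : Fin T, i < j → p i < p j := by
    intro i j hij
    have h1 : 2 * (B * 2 ^ (i : ℕ)) ≤ B * 2 ^ (j : ℕ) := by
      have h2 : 2 ^ ((i : ℕ) + 1) ≤ 2 ^ (j : ℕ) := Nat.pow_le_pow_right (by norm_num) hij
      calc 2 * (B * 2 ^ (i : ℕ)) = B * 2 ^ ((i : ℕ) + 1) := by ring
        _ ≤ B * 2 ^ (j : ℕ) := Nat.mul_le_mul_left _ h2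
    have := hp2 j
    have := hp3 i
    omega
  refine ⟨p, ?_, fun i => ⟨hp1 i, ?_, ?_⟩⟩
  · intro i j hij
    rcases lt_trichotomy i j with h1 | h1 | h1
    · have := hlt i j h1
      omega
    · exact h1
    · have := hlt j i h1
      omega
  · refine lt_of_le_of_lt ?_ (hp2 i)
    exact Nat.le_mul_of_pos_right _ (Nat.pow_pos (by norm_num))
  · refine (hp3 i).trans ?_
    have h2 : 2 ^ ((i : ℕ) + 1) ≤ 2 ^ T := Nat.pow_le_pow_right (by norm_num) i.2
    calc 2 * (B * 2 ^ (i : ℕ)) = B * 2 ^ ((i : ℕ) + 1) := by ring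
      _ ≤ B * 2 ^ T := Nat.mul_le_mul_left _ h2

open Classical in
/-- arbitrary residues -/
theorem mainF (m h : ℕ) (hh : 1 ≤ h) : ∃ K A M0 : ℕ, ∀ M : ℕ, M0 ≤ M → ∀ a b : Fin K → ℕ, Adm a b →
    (∀ i, 0 < a i ∧ b i ≤ a i) →
    Function.Injective (fun i => (a i, b i)) → (∀ i, a i ≤ M) → ∀ r : Fin K → ℕ,
    ∃ n : ℕ, n + 1 ≤ M ^ A ∧
      m ≤ #((univ : Finset (Fin K)).filter (fun i => a i * n + b i ≠ 0 ∧
        ArithmeticFunction.cardFactors (a i * n + b i) ≡ r i [MOD h])) := by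
  obtain ⟨K, A, M0, hE⟩ := mainE m h hh
  obtain ⟨B, hB⟩ : ∃ B : ℕ, B = (2 + K) * h * K := ⟨_, rfl⟩
  refine ⟨K, B + ((B + 1) * A + 1), M0 + 2, ?_⟩
  intro M hM a b hadm hab hinj haM r
  have hM2 : 2 ≤ M := by omega
  obtain ⟨p, hpi, hp⟩ := chain (M * M) K (Nat.mul_pos (by omega) (by omega))
  obtain ⟨t, ht⟩ : ∃ t : Fin K → ℕ, t = fun i => (r i + (h - 1)) % h := ⟨_, rfl⟩
  have ht1 : ∀ i, t i < h := fun i => by rw [ht]; exact Nat.mod_lt _ hh
  have ht2 : ∀ i, t i + 1 ≡ r i [MOD h] := by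
    intro i
    rw [ht]
    have h1 : (r i + (h - 1)) % h + 1 ≡ r i + (h - 1) + 1 [MOD h] := (Nat.mod_modEq _ _).add_right 1
    have h2 : r i + (h - 1) + 1 = r i + h := by omega
    rw [h2] at h1
    refine h1.trans ?_
    unfold Nat.ModEq
    simp
  have hMM : M * M * 2 ^ K ≤ M ^ (2 + K) := by
    calc M * M * 2 ^ K ≤ M * M * M ^ K := Nat.mul_le_mul_left _ (Nat.pow_le_pow_left hM2 K)
      _ = M ^ (2 + K) := by ring
  obtain ⟨v, hv⟩ : ∃ v : Fin K → ℕ, v = fun i => p i ^ t i := ⟨_, rfl⟩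
  have hvi : ∀ i, v i = p i ^ t i := fun i => by rw [hv]
  have hv0 : ∀ i, 0 < v i := fun i => by rw [hvi]; exact Nat.pow_pos (hp i).1.pos
  obtain ⟨ν, a', b', Q, hνP, hadm', hab', hinj', ha', hQ, hid⟩ := subst_u hadm hab hinj haM v hv0 (by
    intro i j hij
    rw [hvi, hvi]
    exact ((Nat.coprime_primes (hp i).1 (hp j).1).2 (fun h1 => hij (hpi h1))).pow _ _) (by
    intro i q hq hqv
    rw [hvi] at hqv
    have h2 := (Nat.prime_dvd_prime_iff_eq hq (hp i).1).1 (hq.dvd_of_dvd_pow hqv)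
    rw [h2]
    exact (hp i).2.1)
  obtain ⟨P, hP⟩ : ∃ P : ℕ, P = ∏ j, v j := ⟨_, rfl⟩
  rw [← hP] at hνP hid
  have hPM : P ≤ M ^ B := by
    rw [hP, hB, pow_mul]
    calc ∏ i, v i ≤ ∏ _i : Fin K, M ^ ((2 + K) * h) := by
          apply prod_le_prod'
          intro i _
          rw [hvi, pow_mul]
          calc p i ^ t i ≤ (M ^ (2 + K)) ^ t i := Nat.pow_le_pow_left ((hp i).2.2.trans hMM) _
            _ ≤ (M ^ (2 + K)) ^ h := Nat.pow_le_pow_right (Nat.pow_pos (by omega)) (ht1 i).le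
      _ = (M ^ ((2 + K) * h)) ^ K := by rw [prod_const, card_univ, Fintype.card_fin]
  have hQP : ∀ i, Q i ≤ P := by
    intro i
    have h1 := hQ i
    rw [← hP] at h1
    rw [h1]
    exact Nat.le_mul_of_pos_left _ (hv0 i)
  obtain ⟨n, hn1, hn2⟩ := hE (M ^ (B + 1)) (by
    have : M ≤ M ^ (B + 1) := Nat.le_self_pow (by omega) M
    omega) a' b' hadm' hab' hinj' (fun i => by
    rw [ha' i, pow_succ, mul_comm (M ^ B)]
    exact Nat.mul_le_mul (haM i) ((hQP i).trans hPM))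
  refine ⟨ν + P * n, ?_, hn2.trans (card_le_card ?_)⟩
  · rw [← pow_mul] at hn1
    have h1 : n + 1 ≤ M ^ ((B + 1) * A + 1) := by
      have h2 : 1 ≤ M ^ ((B + 1) * A) := Nat.one_le_pow _ _ (by omega)
      calc n + 1 ≤ 2 * M ^ ((B + 1) * A) := by omega
        _ ≤ M * M ^ ((B + 1) * A) := Nat.mul_le_mul_right _ hM2
        _ = M ^ ((B + 1) * A + 1) := by ring
    calc ν + P * n + 1 ≤ P * (n + 1) := by
          have : P * (n + 1) = P * n + P := by ring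
          omega
      _ ≤ M ^ B * M ^ ((B + 1) * A + 1) := Nat.mul_le_mul hPM h1
      _ = M ^ (B + ((B + 1) * A + 1)) := by rw [← pow_add]
  · intro j hj
    rw [mem_filter] at hj ⊢
    have hne := hj.2.1
    refine ⟨mem_univ _, by rw [hid j n]; exact (Nat.mul_pos (hv0 j) (Nat.pos_of_ne_zero hne)).ne', ?_⟩
    rw [hid j n, ArithmeticFunction.cardFactors_mul (hv0 j).ne' hne, hvi,
      ArithmeticFunction.cardFactors_apply_prime_pow (hp j).1]
    exact (hj.2.2.add_left (t j)).trans (ht2 j)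

end Pool.Agent.H92.E
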