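import Pool.Agent.H92.E.Exc

set_option autoImplicit false

/-! The number of prime factors modulo `h`, for every system. -/

namespace Pool.Agent.H92.E

open Finset Filter Topology
open Pool.Agent.H378R2 Pool.Agent.H262R3.Lk Pool.Agent.H262R2.UM Pool.Agent.H262R2.UP
open Pool.Agent.H92.G (Chr Tends lowX pigeon chr_of L_low)
open Pool.Agent.H92.T (minusM minus_primes goodK subst_D many_good card_emb adm_sub bnd8)

open Classical in
set_option maxHeartbeats 4000000 in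
theorem mainE (m h : ℕ) (hh : 1 ≤ h) : ∃ K A M0 : ℕ, ∀ M : ℕ, M0 ≤ M → ∀ a b : Fin K → ℕ, Adm a b →
    (∀ i, 0 < a i ∧ b i ≤ a i) →
    Function.Injective (fun i => (a i, b i)) → (∀ i, a i ≤ M) →
    ∃ n : ℕ, n ≤ M ^ A ∧
      m ≤ #((univ : Finset (Fin K)).filter (fun i => a i * n + b i ≠ 0 ∧
        ArithmeticFunction.cardFactors (a i * n + b i) ≡ 1 [MOD h])) := by
  obtain ⟨K1, E, u, A1, M1, ϑ1, hK1, hE, hu, hϑ1, hminus⟩ := minusM m
  obtain ⟨w, hw17, hmp⟩ := minus_primes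
  obtain ⟨w2, s2, hw217, hpp⟩ := plus_primes K1
  obtain ⟨G, δm, hG, hδm, hδm1, hlow⟩ := lowX
  obtain ⟨cL, hcL, hLlow⟩ := L_low
  obtain ⟨g1, hg1⟩ : ∃ g1 : ℕ, g1 = (w * (3 * h) + w2) * K1 + 2 := ⟨_, rfl⟩
  obtain ⟨V, hV⟩ : ∃ V : ℕ, V = g1 * (50 * u * E) + w + w2 + 16 := ⟨_, rfl⟩
  have hV16 : 16 ≤ V := by omega
  obtain ⟨ϑ, hϑ⟩ : ∃ ϑ : ℝ, ϑ = min (1 / 8) ϑ1 := ⟨_, rfl⟩
  have hϑ0 : 0 < ϑ := by rw [hϑ]; exact lt_min (by norm_num) hϑ1
  obtain ⟨J, hJ⟩ := exists_nat_gt (G / ϑ)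
  rw [div_lt_iff₀ hϑ0] at hJ
  have hVr : (0 : ℝ) < (V : ℝ) ^ J := by
    have : (0 : ℝ) < V := by
      have : 0 < V := by omega
      exact_mod_cast this
    positivity
  obtain ⟨δ, hδ⟩ : ∃ δ : ℝ, δ = min δm (1 / (V : ℝ) ^ J) := ⟨_, rfl⟩
  have hδ0 : 0 < δ := by rw [hδ]; exact lt_min hδm (by positivity)
  have hδa : δ ≤ δm := by rw [hδ]; exact min_le_left _ _
  have hδb : δ * (V : ℝ) ^ J ≤ 1 := by
    have h1 : δ ≤ 1 / (V : ℝ) ^ J := by rw [hδ]; exact min_le_right _ _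
    rw [le_div_iff₀ hVr] at h1
    exact h1
  obtain ⟨c1, hc1, hdich⟩ := hlow δ hδ0 hδa
  obtain ⟨K2, A2, M2, hgood⟩ := goodK m c1 δ hc1 hδ0
  obtain ⟨P0, hP0⟩ : ∃ P0 : ℕ, P0 = ∏ p ∈ Pz K2, p := ⟨_, rfl⟩
  have hPzp : ∀ p ∈ Pz K2, p.Prime := fun p hp => (mem_Pz.1 hp).2
  have hP0pos : 0 < P0 := by rw [hP0]; exact prod_pos fun p hp => (hPzp p hp).pos
  obtain ⟨D, hD⟩ : ∃ D : ℕ, D = P0 ^ 3 := ⟨_, rfl⟩
  have hDpos : 0 < D := by rw [hD]; exact Nat.pow_pos hP0pos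
  have hpP0 : ∀ p ∈ Pz K2, p ∣ P0 := fun p hp => by rw [hP0]; exact dvd_prod_of_mem (fun q => q) hp
  have hDs : ∀ p : ℕ, p.Prime → (p ∣ D ↔ p ∈ Pz K2) := by
    intro p hp
    rw [hD]
    constructor
    · intro h
      have h1 := hp.dvd_of_dvd_pow h
      rw [hP0] at h1
      exact pf_prod hPzp hp h1
    · intro h
      exact (hpP0 p h).trans (dvd_pow_self _ (by norm_num))
  obtain ⟨Q, hQ⟩ : ∃ Q : ℕ, Q = g1 * (A1 + 1) + (w * (3 * h) + w2) * K1 := ⟨_, rfl⟩
  refine ⟨K2 + K1, 1 + 4 * V ^ J * Q + 2 * (A2 + 1), M1 + M2 + s2 + D + K1 + 17 + ⌈1 / cL⌉₊, ?_⟩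
  intro M hM a b hadm hab hinj haM
  have hM17 : 17 ≤ M := by omega
  obtain ⟨ν, hνD, hadm', hab', hinj'⟩ := subst_D hadm hab hinj (Pz K2) hPzp D hDpos hDs
  obtain ⟨M', hM'⟩ : ∃ M' : ℕ, M' = M ^ 2 := ⟨_, rfl⟩
  have hMM' : M ≤ M' := by rw [hM']; exact Nat.le_self_pow (by norm_num) M
  have haM' : ∀ i, a i * D ≤ M' := by
    intro i
    rw [hM', sq]
    exact Nat.mul_le_mul (haM i) (by omega)
  have hM'r : (17 : ℝ) ≤ M' := by exact_mod_cast hM17.trans hMM'
  have hM'0 : (0 : ℝ) < M' := by linarith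
  obtain ⟨z, hz⟩ : ∃ z : ℕ, z = M' ^ 32 := ⟨_, rfl⟩
  have hz32 : 32 ≤ z := by
    rw [hz]
    calc 32 ≤ 17 ^ 32 := by norm_num
      _ ≤ M' ^ 32 := Nat.pow_le_pow_left (hM17.trans hMM') 32
  obtain ⟨huniq, hgoodL, hexc⟩ := hdich z hz32
  have hval : ∀ n i, a i * (ν + D * n) + b i = a i * D * n + (a i * ν + b i) := by
    intro n i; ring
  -- the two kinds of forms
  have hcard : #((univ : Finset (Fin (K2 + K1))).filter (fun i => ∃ f, LOW.Exc z δ f ∧ f ∣ a i * D)) +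
      #((univ : Finset (Fin (K2 + K1))).filter (fun i => ¬ ∃ f, LOW.Exc z δ f ∧ f ∣ a i * D)) = K2 + K1 := by
    rw [card_filter_add_card_filter_not, card_univ, Fintype.card_fin]
  rcases Nat.lt_or_ge (#((univ : Finset (Fin (K2 + K1))).filter
    (fun i => ¬ ∃ f, LOW.Exc z δ f ∧ f ∣ a i * D))) K2 with hlt | hge
  · -- the exceptional modulus divides many `a i`
    have hI : K1 ≤ #((univ : Finset (Fin (K2 + K1))).filter (fun i => ∃ f, LOW.Exc z δ f ∧ f ∣ a i * D)) := by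
      omega
    obtain ⟨i0, hi0⟩ := card_pos.1 (show 0 < #((univ : Finset (Fin (K2 + K1))).filter
      (fun i => ∃ f, LOW.Exc z δ f ∧ f ∣ a i * D)) by omega)
    obtain ⟨f, hf, hfa0⟩ := (mem_filter.1 hi0).2
    have hf1 : 1 < f := hf.1
    have : NeZero f := ⟨by omega⟩
    obtain ⟨ψ, hψp, hψ2, hψs⟩ := hexc f hf
    have hψ1 : ψ ≠ 1 := LOW.primitive_ne_one hf1 hψp
    obtain ⟨χ, hχ, hψχ, hTe⟩ := chr_of ψ hψ1 hψ2
    have hχone : ∀ n : ℕ, χ n = 1 → ψ (n : ZMod f) = 1 := by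
      intro n hn
      rw [hψχ, hn, Complex.ofReal_one]
    obtain ⟨g, hg⟩ : ∃ g : ℕ → ℝ, g = fun r => if r.Prime ∧ χ r = 1 then 1 / (r : ℝ) else 0 := ⟨_, rfl⟩
    have hg0 : ∀ r, 0 ≤ g r := by
      intro r
      rw [hg]
      simp only []
      split_ifs
      · positivity
      · exact le_rfl
    have hsum : ∑ r ∈ Ioc (M' ^ 32) (M' ^ (32 * V ^ J)), g r ≤ G := by
      rw [hg, ← sum_filter]
      apply hψs
      intro p hp
      rw [mem_filter, mem_Ioc] at hp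
      obtain ⟨⟨h1, h2⟩, h3, h4⟩ := hp
      refine ⟨h3, by rw [hz]; exact h1, ?_, hχone p h4⟩
      have hp0 : (0 : ℝ) < p := by exact_mod_cast h3.pos
      have h5 : Real.log p ≤ Real.log ((M' ^ (32 * V ^ J) : ℕ) : ℝ) := Real.log_le_log hp0 (by exact_mod_cast h2)
      rw [Nat.cast_pow, Real.log_pow] at h5
      have h6 : Real.log z = 32 * Real.log M' := by
        rw [hz, Nat.cast_pow, Real.log_pow]; norm_num
      have hlogM : 0 ≤ Real.log M' := Real.log_nonneg (by linarith)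
      rw [h6]
      calc δ * Real.log p ≤ δ * (((32 * V ^ J : ℕ) : ℝ) * Real.log M') := mul_le_mul_of_nonneg_left h5 hδ0.le
        _ = 32 * (δ * (V : ℝ) ^ J) * Real.log M' := by push_cast; ring
        _ ≤ 32 * 1 * Real.log M' := by gcongr
        _ = 32 * Real.log M' := by ring
    obtain ⟨t, htJ, ht⟩ := pigeon g hg0 M' V J (by omega) hV16 G ϑ hsum hJ
    obtain ⟨s, hs⟩ : ∃ s : ℕ, s = M' ^ (2 * V ^ t) := ⟨_, rfl⟩
    rw [← hs] at ht
    have hVt : 1 ≤ V ^ t := Nat.one_le_pow _ _ (by omega)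
    have hMs : M' ≤ s := by rw [hs]; exact Nat.le_self_pow (by omega) M'
    have hM2s : M' ^ 2 ≤ s := by rw [hs]; exact Nat.pow_le_pow_right (by omega) (by omega)
    have has : ∀ i, a i * D ≤ s := fun i => (haM' i).trans hMs
    have hfs : f ≤ s := (Nat.le_of_dvd (hab' i0).1 hfa0).trans (has i0)
    have hLs : 1 / (s : ℝ) ≤ ‖ψ.LFunction 1‖ := by
      refine le_trans ?_ (hLlow f ψ hψp hψ2 hψ1)
      have hs0 : (0 : ℝ) < s := by
        have : 0 < s := by omega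
        exact_mod_cast this
      have hf0 : (0 : ℝ) < f := by
        have : 0 < f := by omega
        exact_mod_cast this
      rw [div_le_div_iff₀ hs0 hf0, one_mul]
      have h1 : (f : ℝ) ≤ M' := by
        have h2 : f ≤ a i0 * D := Nat.le_of_dvd (hab' i0).1 hfa0
        exact_mod_cast h2.trans (haM' i0)
      have h2 : 1 / cL ≤ M' := by
        have h3 : (1 / cL : ℝ) ≤ ⌈1 / cL⌉₊ := Nat.le_ceil _
        have h4 : ((⌈1 / cL⌉₊ : ℕ) : ℝ) ≤ M' := by
          have : ⌈1 / cL⌉₊ ≤ M' := by omega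
          exact_mod_cast this
        linarith
      have h3 : (M' : ℝ) ^ 2 ≤ s := by exact_mod_cast hM2s
      rw [div_le_iff₀ hcL] at h2
      calc (f : ℝ) ≤ 1 * M' := by rw [one_mul]; exact h1
        _ ≤ (M' * cL) * M' := mul_le_mul_of_nonneg_right h2 hM'0.le
        _ = cL * (M' : ℝ) ^ 2 := by ring
        _ ≤ cL * s := mul_le_mul_of_nonneg_left h3 hcL.le
    obtain ⟨e, he, heI⟩ := sub_emb _ hI
    obtain ⟨n, hn1, hn2⟩ := exc_one (a := fun j => a (e j) * D) (b := fun j => a (e j) * ν + b (e j)) hh hE hminus hmp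
      hpp hg1 (by omega) (by omega) (by omega) hχ hTe hLs (by omega) hfs
      (by omega) (by omega) (by omega) (by omega) (s := s) (V := V) (by
        intro x y hx hy
        rw [← hϑ]
        refine le_trans ?_ ht
        rw [sum_filter, hg]
        apply sum_le_sum_of_subset_of_nonneg
        · intro r hr
          rw [mem_Ioc] at hr ⊢
          exact ⟨lt_of_le_of_lt (Nat.pow_le_pow_right (by omega) hx) hr.1,
            hr.2.trans (Nat.pow_le_pow_right (by omega) hy)⟩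
        · intro r _ _
          split_ifs
          · positivity
          · exact le_rfl) (adm_sub hadm' e) (fun j => hab' (e j)) (fun x y hxy => he (hinj' hxy)) (fun j => has (e j)) (by
        intro j
        obtain ⟨f', hf', hd⟩ := (mem_filter.1 (heI j)).2
        show f ∣ a (e j) * D
        rw [huniq f f' hf hf']
        exact hd)
    refine ⟨ν + D * n, ?_, ?_⟩
    · rw [← hQ, hs, hM', ← pow_mul, ← pow_mul, ← mul_assoc] at hn1
      have h1 : V ^ t ≤ V ^ J := Nat.pow_le_pow_right (by omega) htJ.le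
      have h2 : 2 * (2 * V ^ t) * Q ≤ 4 * V ^ J * Q := by
        apply Nat.mul_le_mul_right
        omega
      calc ν + D * n ≤ D * (n + 1) := by
            have : D * (n + 1) = D * n + D := by ring
            omega
        _ ≤ M * M ^ (2 * (2 * V ^ t) * Q) := Nat.mul_le_mul (by omega) hn1
        _ = M ^ (1 + 2 * (2 * V ^ t) * Q) := by rw [pow_add, pow_one]
        _ ≤ _ := Nat.pow_le_pow_right (by omega) (by omega)
    · simp only [hval]
      exact hn2.trans (card_emb he (fun i => a i * D * n + (a i * ν + b i) ≠ 0 ∧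
        ArithmeticFunction.cardFactors (a i * D * n + (a i * ν + b i)) ≡ 1 [MOD h]))
  · -- many good forms
    obtain ⟨n, hn1, hn2⟩ := many_good hgood (M' := M') (z := z) (by omega) (by omega) hz huniq hgoodL hadm' hab' hinj'
      haM' (by
        intro i p hp hpK
        have h1 : p ∣ P0 := hpP0 p (mem_Pz.2 ⟨hpK.le, hp⟩)
        have h2 : p ^ 3 ∣ D := by rw [hD]; exact pow_dvd_pow_of_dvd h1 3
        exact h2.mul_left (a i))
      ((univ : Finset (Fin (K2 + K1))).filter (fun i => ¬ ∃ f, LOW.Exc z δ f ∧ f ∣ a i * D)) hge (by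
        intro i hi f hf hd
        exact (mem_filter.1 hi).2 ⟨f, hf, hd⟩)
    refine ⟨ν + D * n, ?_, ?_⟩
    · have h3 := bnd8 (by omega) hn1
      rw [hM', ← pow_mul] at h3
      calc ν + D * n ≤ D * (n + 1) := by
            have : D * (n + 1) = D * n + D := by ring
            omega
        _ ≤ M * M ^ (2 * (A2 + 1)) := Nat.mul_le_mul (by omega) h3
        _ = M ^ (1 + 2 * (A2 + 1)) := by rw [pow_add, pow_one]
        _ ≤ _ := Nat.pow_le_pow_right (by omega) (by omega)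
    · simp only [hval]
      refine hn2.trans (card_le_card ?_)
      intro i hi
      rw [mem_filter] at hi ⊢
      refine ⟨mem_univ _, hi.2.ne_zero, ?_⟩
      rw [ArithmeticFunction.cardFactors_apply_prime hi.2]

end Pool.Agent.H92.E
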