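import Pool.Agent.H92.E.Sub
import Pool.Agent.H92.G.PlusFin

set_option autoImplicit false

/-! Many primes with `χ = 1` in the exceptional case. -/

namespace Pool.Agent.H92.E

open Finset Filter
open Pool.Agent.H262R2.UM
open Pool.Agent.H92.G

theorem adm_one {a b : ℕ} (h : b.Coprime a) : Adm (fun _ : Fin 1 => a) (fun _ : Fin 1 => b) := by
  intro p hp
  by_cases hpa : p ∣ a
  · refine ⟨0, fun _ hd => ?_⟩
    simp only [mul_zero, zero_add] at hd
    have h1 := Nat.dvd_gcd hd hpa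
    rw [h] at h1
    exact hp.one_lt.ne' (Nat.dvd_one.1 h1)
  · by_cases hpb : p ∣ b
    · refine ⟨1, fun _ hd => ?_⟩
      simp only [mul_one] at hd
      exact hpa ((Nat.dvd_add_left hpb).1 hd)
    · refine ⟨0, fun _ hd => ?_⟩
      simp only [mul_zero, zero_add] at hd
      exact hpb hd

theorem plus_primes (T : ℕ) : ∃ w s0 : ℕ, 17 ≤ w ∧ ∀ s : ℕ, s0 ≤ s → ∀ (f : ℕ) (χ : ℕ → ℝ) (L : ℝ), Chr f χ →
    Tends χ L → 1 / (s : ℝ) ≤ L → 2 ≤ f → f ≤ s →
    ∑ r ∈ (Ioc (s ^ 16) (s ^ w)).filter (fun r => r.Prime ∧ χ r = 1), 1 / (r : ℝ) ≤ 1 / 8 →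
    ∃ r : Fin T → ℕ, Function.Injective r ∧ ∀ j, (r j).Prime ∧ s ^ 16 < r j ∧ r j ≤ s ^ w ∧ χ (r j) = 1 := by
  obtain ⟨u, s1, hu, hplus⟩ := plus_case 1
  refine ⟨(T + 1) * (16 * (u + 1) + 2), s1 + 2, ?_, ?_⟩
  · have h1 : 1 * (16 * (u + 1) + 2) ≤ (T + 1) * (16 * (u + 1) + 2) := Nat.mul_le_mul_right _ (by omega)
    omega
  intro s hs f χ L hχ hL hLs hf2 hfs hsum
  obtain ⟨s', hs'⟩ : ∃ s' : ℕ, s' = s ^ (T + 1) := ⟨_, rfl⟩
  have hss' : s ≤ s' := by rw [hs']; exact Nat.le_self_pow (by omega) s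
  have hs0 : (0 : ℝ) < s := by
    have : 0 < s := by omega
    exact_mod_cast this
  have hLs' : 1 / (s' : ℝ) ≤ L := by
    refine le_trans ?_ hLs
    exact one_div_le_one_div_of_le hs0 (by exact_mod_cast hss')
  have hTf : T < f ^ T := lt_of_lt_of_le (Nat.lt_two_pow_self) (Nat.pow_le_pow_left hf2 T)
  have hfs' : f ^ (T + 1) ≤ s' := by rw [hs']; exact Nat.pow_le_pow_left hfs _
  have hbj : ∀ j : Fin T, 1 + f * j ≤ f ^ (T + 1) := by
    intro j
    have h1 : (j : ℕ) + 1 ≤ f ^ T := by have := j.2; omega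
    have h2 : f * ((j : ℕ) + 1) ≤ f * f ^ T := Nat.mul_le_mul_left _ h1
    have h3 : f * ((j : ℕ) + 1) = f * j + f := by ring
    have h4 : f * f ^ T = f ^ (T + 1) := by ring
    omega
  have hwin : ∑ r ∈ (Ioc (s' ^ 16) (s' ^ (16 * (u + 1)))).filter (fun r => r.Prime ∧ χ r = 1), 1 / (r : ℝ) ≤ 1 / 8 := by
    refine le_trans ?_ hsum
    apply sum_le_sum_of_subset_of_nonneg
    · intro r hr
      rw [mem_filter, mem_Ioc] at hr ⊢
      refine ⟨⟨?_, ?_⟩, hr.2⟩
      · refine lt_of_le_of_lt ?_ hr.1.1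
        exact Nat.pow_le_pow_left hss' 16
      · refine hr.1.2.trans ?_
        rw [hs', ← pow_mul]
        apply Nat.pow_le_pow_right (by omega)
        apply Nat.mul_le_mul_left
        omega
    · intro r _ _
      positivity
  have hex : ∀ j : Fin T, ∃ n : ℕ, n ≤ s' ^ (16 * u) ∧ (f ^ (T + 1) * n + (1 + f * j)).Prime ∧
      s' ^ 16 < f ^ (T + 1) * n + (1 + f * j) := by
    intro j
    have hcop : (1 + f * (j : ℕ)).Coprime (f ^ (T + 1)) := by
      apply Nat.Coprime.pow_right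
      rw [Nat.coprime_add_mul_left_left]
      exact Nat.coprime_one_left f
    obtain ⟨n, hn1, hn2, hn3, hn4⟩ := hplus s' (by omega) f χ L hχ hL hLs' (fun _ => f ^ (T + 1)) (fun _ => 1 + f * j)
      (adm_one hcop) (fun _ => ⟨Nat.pow_pos (by omega), hbj j⟩) (fun _ => by omega) (fun _ => hfs') 0
      (dvd_pow_self f (by omega)) (by
        rw [← hχ.one]
        apply hχ.per
        simp) hwin
    exact ⟨n, hn2, hn3, hn4 0 _ hn3 dvd_rfl⟩
  choose n hn1 hn2 hn3 using hex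
  refine ⟨fun j => f ^ (T + 1) * n j + (1 + f * j), ?_, ?_⟩
  · intro i j hij
    simp only at hij
    have h1 : f * (f ^ T * n i + i) = f * (f ^ T * n j + j) := by
      have e1 : f * (f ^ T * n i + i) + 1 = f ^ (T + 1) * n i + (1 + f * i) := by ring
      have e2 : f * (f ^ T * n j + j) + 1 = f ^ (T + 1) * n j + (1 + f * j) := by ring
      omega
    have h2 := Nat.eq_of_mul_eq_mul_left (by omega) h1
    have h3 : (f ^ T * n i + (i : ℕ)) % f ^ T = (f ^ T * n j + (j : ℕ)) % f ^ T := by rw [h2]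
    rw [Nat.mul_add_mod, Nat.mul_add_mod, Nat.mod_eq_of_lt (lt_trans i.2 hTf),
      Nat.mod_eq_of_lt (lt_trans j.2 hTf)] at h3
    exact Fin.ext h3
  · intro j
    refine ⟨hn2 j, lt_of_le_of_lt (Nat.pow_le_pow_left hss' 16) (hn3 j), ?_, ?_⟩
    · have h1 : f ^ (T + 1) * n j ≤ s' * s' ^ (16 * u) := Nat.mul_le_mul hfs' (hn1 j)
      have h2 := (hbj j).trans hfs'
      have h3 : s' ^ (16 * u + 2) ≤ s ^ ((T + 1) * (16 * (u + 1) + 2)) := by
        rw [hs', ← pow_mul]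
        apply Nat.pow_le_pow_right (by omega)
        apply Nat.mul_le_mul_left
        omega
      have h4 : 2 ≤ s' := by omega
      have h5 : 1 ≤ s' ^ (16 * u) := Nat.one_le_pow _ _ (by omega)
      have h6 : s' ^ (16 * u + 2) = s' * (s' * s' ^ (16 * u)) := by ring
      have h7 : s' ≤ s' * s' ^ (16 * u) := Nat.le_mul_of_pos_right _ (by omega)
      have h8 : 2 * (s' * s' ^ (16 * u)) ≤ s' * (s' * s' ^ (16 * u)) := Nat.mul_le_mul_right _ h4
      show f ^ (T + 1) * n j + (1 + f * j) ≤ _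
      omega
    · rw [← hχ.one]
      apply hχ.per
      have h1 : f ^ (T + 1) * n j + f * (j : ℕ) ≡ 0 [MOD f] :=
        Nat.modEq_zero_iff_dvd.2 (dvd_add ((dvd_pow_self f (by omega)).mul_right _) (dvd_mul_right _ _))
      have h2 := h1.add_right 1
      have e : f ^ (T + 1) * n j + f * (j : ℕ) + 1 = f ^ (T + 1) * n j + (1 + f * j) := by ring
      rwa [e, zero_add] at h2

end Pool.Agent.H92.E
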