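import Pool.Agent.H92.E.Fin

set_option autoImplicit false

/-! Reduction of arbitrary forms to admissible forms. -/

namespace Pool.Agent.H92.E

open Finset Filter Topology
open Pool.Agent.H262R2.UM

theorem reduce {K M : ℕ} {a b : Fin K → ℕ} (ha : ∀ i, 1 ≤ a i) (hb : ∀ i, 1 ≤ b i ∧ b i ≤ M)
    (hne : ∀ i j, i ≠ j → a i * b j ≠ a j * b i) (D : ℕ) (hD : D = (2 * K.factorial) ^ (Nat.log 2 M + 1)) :
    ∃ g a' b' : Fin K → ℕ, Adm a' b' ∧ (∀ i, 0 < a' i ∧ b' i ≤ a' i) ∧
      Function.Injective (fun i => (a' i, b' i)) ∧ (∀ i, 0 < g i) ∧ (∀ i, a' i ≤ a i * D) ∧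
      ∀ i n, a i * (D * n) + b i = g i * (a' i * n + b' i) := by
  have hlog : M < 2 ^ (Nat.log 2 M + 1) := Nat.lt_pow_succ_log_self (by norm_num) M
  have hMD : M < D := by
    rw [hD]
    refine lt_of_lt_of_le hlog (Nat.pow_le_pow_left ?_ _)
    have := Nat.factorial_pos K
    omega
  have hD0 : 0 < D := by omega
  have hpD : ∀ p : ℕ, p.Prime → p ≤ K → p ^ (Nat.log 2 M + 1) ∣ D := by
    intro p hp hpK
    rw [hD]
    apply pow_dvd_pow_of_dvd
    exact (hp.dvd_factorial.2 hpK).mul_left 2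
  obtain ⟨g, hg⟩ : ∃ g : Fin K → ℕ, g = fun i => Nat.gcd (a i * D) (b i) := ⟨_, rfl⟩
  have hgi : ∀ i, g i = Nat.gcd (a i * D) (b i) := fun i => by rw [hg]
  have hg0 : ∀ i, 0 < g i := fun i => by
    rw [hgi]
    exact Nat.gcd_pos_of_pos_right _ (hb i).1
  have h1 : ∀ i, ∃ a', a i * D = g i * a' := fun i => by rw [hgi]; exact Nat.gcd_dvd_left _ _
  have h2 : ∀ i, ∃ b', b i = g i * b' := fun i => by
    have := Nat.gcd_dvd_right (a i * D) (b i)
    rw [← hgi] at this
    exact this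
  choose a' ha' using h1
  choose b' hb' using h2
  have hcop : ∀ i, (a' i).Coprime (b' i) := by
    intro i
    have h3 : Nat.gcd (g i * a' i) (g i * b' i) = g i * Nat.gcd (a' i) (b' i) := Nat.gcd_mul_left _ _ _
    rw [← ha' i, ← hb' i, ← hgi i] at h3
    have h4 : g i * Nat.gcd (a' i) (b' i) = g i * 1 := by rw [mul_one]; exact h3.symm
    exact Nat.eq_of_mul_eq_mul_left (hg0 i) h4
  have haD : ∀ i, 0 < a i * D := fun i => Nat.mul_pos (ha i) hD0
  have ha'0 : ∀ i, 0 < a' i := by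
    intro i
    rcases Nat.eq_zero_or_pos (a' i) with h3 | h3
    · have h4 := ha' i
      have h5 := haD i
      rw [h3, mul_zero] at h4
      omega
    · exact h3
  refine ⟨g, a', b', ?_, fun i => ⟨ha'0 i, ?_⟩, ?_, hg0, ?_, ?_⟩
  · intro p hp
    by_cases hpK : p ≤ K
    · refine ⟨0, fun i hd => ?_⟩
      simp only [mul_zero, zero_add] at hd
      have h3 : ¬ p ∣ a' i := by
        intro h4
        have h5 := Nat.dvd_gcd h4 hd
        rw [hcop i] at h5
        exact hp.one_lt.ne' (Nat.dvd_one.1 h5)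
      have h4 : p ^ (Nat.log 2 M + 1) ∣ g i * a' i := by
        rw [← ha' i]
        exact (hpD p hp hpK).mul_left _
      have h5 : (p ^ (Nat.log 2 M + 1)).Coprime (a' i) := by
        apply Nat.Coprime.pow_left
        rw [Nat.Prime.coprime_iff_not_dvd hp]
        exact h3
      have h6 : p ^ (Nat.log 2 M + 1) ∣ g i := h5.dvd_of_dvd_mul_right h4
      have h7 : p ^ (Nat.log 2 M + 1) ≤ b i := by
        apply Nat.le_of_dvd (by have := (hb i).1; omega)
        rw [hb' i]
        exact h6.mul_right _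
      have h8 : 2 ^ (Nat.log 2 M + 1) ≤ p ^ (Nat.log 2 M + 1) := Nat.pow_le_pow_left hp.two_le _
      have := (hb i).2
      omega
    · push Not at hpK
      by_contra hcon
      push Not at hcon
      choose φ hφ using hcon
      have h3 : ∃ x ∈ range p, ∃ y ∈ range p, x ≠ y ∧ φ x = φ y := by
        apply Finset.exists_ne_map_eq_of_card_lt_of_maps_to (t := (univ : Finset (Fin K)))
        · rw [card_univ, Fintype.card_fin, card_range]
          exact hpK
        · intro x _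
          exact mem_univ _
      obtain ⟨x, hx, y, hy, hxy, he⟩ := h3
      rw [mem_range] at hx hy
      have h4 : (p : ℤ) ∣ (a' (φ x) : ℤ) * x + b' (φ x) := by exact_mod_cast hφ x
      have h5 : (p : ℤ) ∣ (a' (φ x) : ℤ) * y + b' (φ x) := by
        have := hφ y
        rw [← he] at this
        exact_mod_cast this
      have h6 : (p : ℤ) ∣ (a' (φ x) : ℤ) * ((x : ℤ) - y) := by
        have h7 := dvd_sub h4 h5
        have e : (a' (φ x) : ℤ) * x + b' (φ x) - ((a' (φ x) : ℤ) * y + b' (φ x)) = (a' (φ x) : ℤ) * ((x : ℤ) - y) := by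
          ring
        rwa [e] at h7
      rcases (Nat.prime_iff_prime_int.1 hp).dvd_mul.1 h6 with h7 | h7
      · have h8 : p ∣ a' (φ x) := by exact_mod_cast h7
        have h9 : p ∣ b' (φ x) := (Nat.dvd_add_right (h8.mul_right x)).1 (hφ x)
        have h10 := Nat.dvd_gcd h8 h9
        rw [hcop] at h10
        exact hp.one_lt.ne' (Nat.dvd_one.1 h10)
      · apply hxy
        have h8 := Int.eq_zero_of_abs_lt_dvd h7 (by
          rw [abs_lt]
          constructor <;> omega)
        omega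
  · have h3 : g i * b' i ≤ g i * a' i := by
      rw [← ha' i, ← hb' i]
      have h4 := (hb i).2
      have h5 : 1 * D ≤ a i * D := Nat.mul_le_mul_right _ (ha i)
      omega
    exact Nat.le_of_mul_le_mul_left h3 (hg0 i)
  · intro i j hij
    by_contra hn
    simp only [Prod.mk.injEq] at hij
    apply hne i j hn
    have e1 : D * (a i * b j) = D * (a j * b i) := by
      calc D * (a i * b j) = (a i * D) * b j := by ring
        _ = (g i * a' i) * (g j * b' j) := by rw [ha' i, hb' j]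
        _ = (g j * a' j) * (g i * b' i) := by rw [hij.1, hij.2]; ring
        _ = (a j * D) * b i := by rw [← ha' j, ← hb' i]
        _ = D * (a j * b i) := by ring
    exact Nat.eq_of_mul_eq_mul_left hD0 e1
  · intro i
    rw [ha' i]
    exact Nat.le_mul_of_pos_left _ (hg0 i)
  · intro i n
    have e : a i * (D * n) + b i = (a i * D) * n + b i := by ring
    have e2 : g i * (a' i * n + b' i) = (g i * a' i) * n + g i * b' i := by ring
    rw [e, e2, ← ha' i, ← hb' i]

open Classical in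
/-- arbitrary forms -/
theorem mainG (m h : ℕ) (hh : 1 ≤ h) : ∃ K A M0 : ℕ, ∀ M : ℕ, M0 ≤ M → ∀ a b : Fin K → ℕ,
    (∀ i, 1 ≤ a i ∧ a i ≤ M) → (∀ i, 1 ≤ b i ∧ b i ≤ M) → (∀ i j, i ≠ j → a i * b j ≠ a j * b i) → ∀ r : Fin K → ℕ,
    ∃ n : ℕ, n + 1 ≤ M ^ A ∧
      m ≤ #((univ : Finset (Fin K)).filter (fun i => ArithmeticFunction.cardFactors (a i * n + b i) ≡ r i [MOD h])) := by
  obtain ⟨K, A, M0, hF⟩ := mainF m h hh
  obtain ⟨B, hB⟩ : ∃ B : ℕ, B = 2 * (2 * K.factorial) := ⟨_, rfl⟩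
  refine ⟨K, B + (B + 1) * A, M0 + 2, ?_⟩
  intro M hM a b ha hb hne r
  have hM2 : 2 ≤ M := by omega
  obtain ⟨D, hD⟩ : ∃ D : ℕ, D = (2 * K.factorial) ^ (Nat.log 2 M + 1) := ⟨_, rfl⟩
  have hDM : D ≤ M ^ B := by
    have h1 : 2 * K.factorial ≤ 2 ^ (2 * K.factorial) := Nat.lt_two_pow_self.le
    have h2 : 2 ^ Nat.log 2 M ≤ M := Nat.pow_log_le_self 2 (by omega)
    calc D ≤ (2 ^ (2 * K.factorial)) ^ (Nat.log 2 M + 1) := by rw [hD]; exact Nat.pow_le_pow_left h1 _
      _ = (2 * 2 ^ (Nat.log 2 M)) ^ (2 * K.factorial) := by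
        rw [← pow_mul, mul_comm, pow_mul, pow_succ, mul_comm (2 ^ _) 2]
      _ ≤ (M * M) ^ (2 * K.factorial) := Nat.pow_le_pow_left (Nat.mul_le_mul hM2 h2) _
      _ = M ^ B := by rw [hB, ← sq M, ← pow_mul]
  have hD0 : 0 < D := by
    rw [hD]
    exact Nat.pow_pos (Nat.mul_pos (by norm_num) (Nat.factorial_pos K))
  obtain ⟨g, a', b', hadm, hab, hinj, hg0, ha', hid⟩ := reduce (fun i => (ha i).1) hb hne D hD
  obtain ⟨n, hn1, hn2⟩ := hF (M ^ (B + 1)) (by
    have : M ≤ M ^ (B + 1) := Nat.le_self_pow (by omega) M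
    omega) a' b' hadm hab hinj (fun i => by
    refine (ha' i).trans ?_
    rw [pow_succ, mul_comm (M ^ B)]
    exact Nat.mul_le_mul (ha i).2 hDM)
    (fun i => r i + (h - 1) * ArithmeticFunction.cardFactors (g i))
  refine ⟨D * n, ?_, hn2.trans (card_le_card ?_)⟩
  · rw [← pow_mul] at hn1
    calc D * n + 1 ≤ D * (n + 1) := by
          have : D * (n + 1) = D * n + D := by ring
          omega
      _ ≤ M ^ B * M ^ ((B + 1) * A) := Nat.mul_le_mul hDM hn1
      _ = M ^ (B + (B + 1) * A) := by rw [← pow_add]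
  · intro j hj
    rw [mem_filter] at hj ⊢
    refine ⟨mem_univ _, ?_⟩
    rw [hid j n, ArithmeticFunction.cardFactors_mul (hg0 j).ne' hj.2.1]
    refine (hj.2.2.add_left _).trans ?_
    have e : ArithmeticFunction.cardFactors (g j) + (r j + (h - 1) * ArithmeticFunction.cardFactors (g j)) =
        r j + h * ArithmeticFunction.cardFactors (g j) := by
      obtain ⟨h', rfl⟩ : ∃ h', h = h' + 1 := ⟨h - 1, by omega⟩
      simp only [Nat.add_sub_cancel]
      ring
    rw [e]
    unfold Nat.ModEq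
    simp

end Pool.Agent.H92.E
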