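import Pool.Agent.H92.T.Subst

set_option autoImplicit false

/-! A substitution which makes the values of the forms divisible by given numbers. -/

namespace Pool.Agent.H92.E

open Finset Filter
open Pool.Agent.H262R2.UM
open Pool.Agent.H92.G (Chr sub_surj exists_root)

/-- `u i` divides the value of the `i`-th form -/
theorem subst_u {K M : ℕ} {a b : Fin K → ℕ} (hadm : Adm a b)
    (hab : ∀ i, 0 < a i ∧ b i ≤ a i) (hinj : Function.Injective (fun i => (a i, b i))) (haM : ∀ i, a i ≤ M)
    (u : Fin K → ℕ) (hu0 : ∀ i, 0 < u i) (hco : ∀ i j, i ≠ j → (u i).Coprime (u j))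
    (hup : ∀ i, ∀ q : ℕ, q.Prime → q ∣ u i → M * M < q) :
    ∃ (ν : ℕ) (a' b' Q : Fin K → ℕ), ν < ∏ i, u i ∧ Adm a' b' ∧ (∀ i, 0 < a' i ∧ b' i ≤ a' i) ∧
      Function.Injective (fun i => (a' i, b' i)) ∧ (∀ i, a' i = a i * Q i) ∧ (∀ i, ∏ j, u j = u i * Q i) ∧
      ∀ i n, a i * (ν + (∏ j, u j) * n) + b i = u i * (a' i * n + b' i) := by
  classical
  obtain ⟨P, hP⟩ : ∃ P : ℕ, P = ∏ i, u i := ⟨_, rfl⟩
  rw [← hP]
  have hPpos : 0 < P := by rw [hP]; exact prod_pos fun i _ => hu0 i
  have hqM : ∀ i q, q.Prime → q ∣ u i → M < q := by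
    intro i q hq hqu
    have h1 := hup i q hq hqu
    have h2 : M ≤ M * M := Nat.le_mul_self M
    omega
  have hqa : ∀ i j q, q.Prime → q ∣ u i → ¬ q ∣ a j := by
    intro i j q hq hqu hd
    have h1 := Nat.le_of_dvd (hab j).1 hd
    have h2 := hqM i q hq hqu
    have h3 := haM j
    omega
  have hua : ∀ i j, (a j).Coprime (u i) := by
    intro i j
    rw [Nat.coprime_comm]
    apply Nat.Coprime.symm
    apply Nat.Coprime.symm
    apply Nat.coprime_of_dvd
    intro q hq h1 h2
    exact hqa i j q hq h1 h2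
  -- the roots
  have hroot : ∀ i, ∃ n, u i ∣ a i * n + b i := by
    intro i
    exact exists_root (hu0 i) (hua i i)
  choose r hr using hroot
  obtain ⟨k, hk⟩ := Nat.chineseRemainderOfFinset r u univ (fun i _ => (hu0 i).ne') (by
    intro i _ j _ hij
    exact hco i j hij)
  obtain ⟨ν, hν⟩ : ∃ ν : ℕ, ν = k % P := ⟨_, rfl⟩
  have hνP : ν < P := by rw [hν]; exact Nat.mod_lt _ hPpos
  have hpP : ∀ i, u i ∣ P := fun i => by rw [hP]; exact dvd_prod_of_mem u (mem_univ i)
  have hνr : ∀ i, u i ∣ a i * ν + b i := by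
    intro i
    have h1 : ν ≡ r i [MOD u i] := by
      rw [hν]
      exact ((Nat.mod_modEq k P).of_dvd (hpP i)).trans (hk i (mem_univ i))
    have h2 : a i * ν + b i ≡ a i * r i + b i [MOD u i] := (h1.mul_left _).add_right _
    exact (h2.dvd_iff dvd_rfl).2 (hr i)
  choose b' hb' using hνr
  have hPi : ∀ i, ∃ Q, P = u i * Q := fun i => hpP i
  choose Q hQ using hPi
  have hQpos : ∀ i, 0 < Q i := by
    intro i
    rcases Nat.eq_zero_or_pos (Q i) with h1 | h1
    · have := hQ i
      rw [h1, mul_zero] at this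
      omega
    · exact h1
  have hQe : ∀ i, Q i = ∏ j ∈ univ.erase i, u j := by
    intro i
    have h1 : P = u i * ∏ j ∈ univ.erase i, u j := by
      rw [hP, mul_prod_erase univ u (mem_univ i)]
    rw [hQ i] at h1
    exact Nat.eq_of_mul_eq_mul_left (hu0 i) h1
  have hQi : ∀ i q, q.Prime → q ∣ u i → ¬ q ∣ Q i := by
    intro i q hq hqu hd
    rw [hQe i] at hd
    obtain ⟨j, hj, hd'⟩ := (Prime.dvd_finsetProd_iff hq.prime _).1 hd
    have h1 := Nat.dvd_gcd hqu hd'
    rw [hco i j (mem_erase.1 hj).1.symm] at h1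
    exact hq.one_lt.ne' (Nat.dvd_one.1 h1)
  have hQj : ∀ i j, i ≠ j → u i ∣ Q j := by
    intro i j hij
    rw [hQe j]
    exact dvd_prod_of_mem u (mem_erase.2 ⟨hij, mem_univ i⟩)
  have hid : ∀ i n, a i * (ν + P * n) + b i = u i * (a i * Q i * n + b' i) := by
    intro i n
    have h1 : a i * (ν + P * n) + b i = (a i * ν + b i) + a i * P * n := by ring
    rw [h1, hb' i, hQ i]
    ring
  have hcross : ∀ i j q, i ≠ j → q.Prime → q ∣ u i → ¬ q ∣ a j * ν + b j := by
    intro i j q hij hq hqu hd
    have h1 : q ∣ a i * ν + b i := by rw [hb' i]; exact hqu.mul_right _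
    have h2 := nonprop hadm (fun i => (hab i).1) hinj hij
    have h3 : (q : ℤ) ∣ (a i : ℤ) * b j - a j * b i := by
      have e : (a i : ℤ) * b j - a j * b i = a i * ((a j * ν + b j : ℕ) : ℤ) - a j * ((a i * ν + b i : ℕ) : ℤ) := by
        push_cast; ring
      rw [e]
      exact dvd_sub ((Int.natCast_dvd_natCast.2 hd).mul_left _) ((Int.natCast_dvd_natCast.2 h1).mul_left _)
    have h4 := Int.natAbs_pos.2 h2
    have h5 : q ≤ ((a i : ℤ) * b j - a j * b i).natAbs := by
      apply Nat.le_of_dvd h4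
      rw [← Int.natCast_dvd]
      exact h3
    have h6 : ((a i : ℤ) * b j - a j * b i).natAbs ≤ M * M := by
      have h7 : (a i * b j : ℕ) ≤ M * M := Nat.mul_le_mul (haM i) ((hab j).2.trans (haM j))
      have h8 : (a j * b i : ℕ) ≤ M * M := Nat.mul_le_mul (haM j) ((hab i).2.trans (haM i))
      zify at h7 h8 ⊢
      rw [abs_le]
      have h9 : (0 : ℤ) ≤ (a i : ℤ) * b j := by positivity
      have h10 : (0 : ℤ) ≤ (a j : ℤ) * b i := by positivity
      constructor <;> linarith
    have := hup i q hq hqu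
    omega
  refine ⟨ν, fun i => a i * Q i, b', Q, hνP, ?_, ?_, ?_, fun i => rfl, hQ, hid⟩
  · intro q hq
    by_cases hqP : q ∣ P
    · have h1 : ∃ i, q ∣ u i := by
        rw [hP] at hqP
        obtain ⟨j, _, hd⟩ := (Prime.dvd_finsetProd_iff hq.prime _).1 hqP
        exact ⟨j, hd⟩
      obtain ⟨i, hqi⟩ := h1
      have hothers : ∀ n j, j ≠ i → ¬ q ∣ a j * Q j * n + b' j := by
        intro n j hj hd
        have h2 : q ∣ a j * Q j * n := ((hqi.trans (hQj i j hj.symm)).mul_left (a j)).mul_right n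
        have h3 : q ∣ b' j := (Nat.dvd_add_right h2).1 hd
        apply hcross i j q hj.symm hq hqi
        rw [hb' j]
        exact h3.mul_left _
      by_cases hbi : q ∣ b' i
      · refine ⟨1, fun j => ?_⟩
        by_cases hj : j = i
        · subst hj
          intro hd
          simp only [mul_one] at hd
          have h2 : q ∣ a j * Q j := (Nat.dvd_add_left hbi).1 hd
          rcases hq.dvd_mul.1 h2 with h3 | h3
          · exact hqa j j q hq hqi h3
          · exact hQi j q hq hqi h3
        · exact hothers 1 j hj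
      · refine ⟨0, fun j => ?_⟩
        by_cases hj : j = i
        · subst hj
          simpa using hbi
        · exact hothers 0 j hj
    · obtain ⟨n', hn'⟩ := hadm q hq
      have hPq : P.Coprime q := by
        rw [Nat.coprime_comm, Nat.Prime.coprime_iff_not_dvd hq]
        exact hqP
      obtain ⟨n, _, hn⟩ := sub_surj (p := q) (r := P) (s := ν) (c' := n' % q) hq.pos hPq (Nat.mod_lt _ hq.pos)
      refine ⟨n, fun i hd => hn' i ?_⟩
      have h2 : ν + P * n ≡ n' [MOD q] := by
        unfold Nat.ModEq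
        rw [hn]
      have h3 : a i * (ν + P * n) + b i ≡ a i * n' + b i [MOD q] := (h2.mul_left _).add_right _
      rw [← h3.dvd_iff dvd_rfl, hid i n]
      exact hd.mul_left _
  · intro i
    refine ⟨Nat.mul_pos (hab i).1 (hQpos i), ?_⟩
    have h1 : u i * b' i ≤ u i * (a i * Q i) := by
      rw [← hb' i]
      have h2 : a i * (ν + 1) ≤ a i * P := Nat.mul_le_mul_left _ hνP
      have h3 : a i * (ν + 1) = a i * ν + a i := by ring
      have h4 : u i * (a i * Q i) = a i * P := by rw [hQ i]; ring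
      have := (hab i).2
      omega
    exact Nat.le_of_mul_le_mul_left h1 (hu0 i)
  · intro i j hij
    by_contra hne
    simp only [Prod.mk.injEq] at hij
    have h1 : a i * P * u j = a j * P * u i := by
      have e1 : a i * P = u i * (a i * Q i) := by rw [hQ i]; ring
      have e2 : a j * P = u j * (a j * Q j) := by rw [hQ j]; ring
      rw [e1, e2, hij.1]
      ring
    have h2 : a i * u j = a j * u i := by
      have e1 : P * (a i * u j) = P * (a j * u i) := by linarith
      exact Nat.eq_of_mul_eq_mul_left hPpos e1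
    have key : ∀ x y : Fin K, x ≠ y → a x * u y = a y * u x → u x = 1 := by
      intro x y hxy h
      by_contra hu
      obtain ⟨q, hq, hqu⟩ := Nat.exists_prime_and_dvd hu
      have h3 : q ∣ a x * u y := by rw [h]; exact hqu.mul_left _
      rcases hq.dvd_mul.1 h3 with h4 | h4
      · exact hqa x x q hq hqu h4
      · have h5 := Nat.dvd_gcd hqu h4
        rw [hco x y hxy] at h5
        exact hq.one_lt.ne' (Nat.dvd_one.1 h5)
    have hui := key i j hne h2
    have huj := key j i (Ne.symm hne) h2.symm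
    rw [hui, huj, mul_one, mul_one] at h2
    have h3 : b i = b j := by
      have e1 := hb' i
      have e2 := hb' j
      rw [hui, one_mul] at e1
      rw [huj, one_mul] at e2
      have e3 := hij.2
      rw [← e1, ← e2, h2] at e3
      omega
    exact hne (hinj (by simp [h2, h3]))

/-- the number of prime factors of the multiplier -/
theorem choose_te (h r π : ℕ) (hh : 1 ≤ h) (hπ : π < 2) :
    ∃ t e : ℕ, t ≤ 3 * h ∧ e ≤ 1 ∧ t % 2 = π ∧ t + e + 1 ≡ r [MOD h] := by
  have h1 : r % h < h := Nat.mod_lt _ hh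
  have h2 : r % h + 2 * h ≡ r [MOD h] := by
    unfold Nat.ModEq
    simp
  by_cases hp : (r % h + 2 * h - 1) % 2 = π
  · refine ⟨r % h + 2 * h - 1, 0, by omega, by omega, hp, ?_⟩
    rw [show r % h + 2 * h - 1 + 0 + 1 = r % h + 2 * h by omega]
    exact h2
  · refine ⟨r % h + 2 * h - 2, 1, by omega, by omega, by omega, ?_⟩
    rw [show r % h + 2 * h - 2 + 1 + 1 = r % h + 2 * h by omega]
    exact h2

end Pool.Agent.H92.E
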